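import Mathlib
import Pool.Agent.V1138.BO.Siegel

/-!
# The unit equation `β ^ N - γ = u`
-/

set_option autoImplicit false

namespace Pool.Agent.V1138.KR

open Polynomial NumberField IsDedekindDomain
open Pool.Agent.Helper259.AbsHt
open Pool.Agent.Y556.TW (Ov mem_Ov bad_finite GS GS_fg mem_GS unit_eq)
open Pool.Agent.V1138.BO (LocN)

theorem LocN.one (N : ℕ) : LocN N 1 := by
  have h := LocN.int N 1
  rwa [Int.cast_one] at h

theorem LocN.pow {N : ℕ} {q : ℚ} (h : LocN N q) (n : ℕ) : LocN N (q ^ n) := by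
  induction n with
  | zero =>
    rw [pow_zero]
    exact LocN.one N
  | succ n ih =>
    rw [pow_succ]
    exact ih.mul h

theorem LocN.den_inv {N : ℕ} (hN : N ≠ 0) {q : ℚ} (h : LocN N q) : LocN N ((q.den : ℚ)⁻¹) := by
  obtain ⟨k, m, hq⟩ := h
  have hN0 : (N : ℚ) ^ k ≠ 0 := pow_ne_zero k (by exact_mod_cast hN)
  have h1 : (q.den : ℤ) ∣ (N : ℤ) ^ k := by
    have h2 : q = Rat.divInt m ((N : ℤ) ^ k) := by
      rw [Rat.divInt_eq_div, hq]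
      push_cast
      rfl
    rw [h2]
    exact Rat.den_dvd m ((N : ℤ) ^ k)
  obtain ⟨c, hc⟩ := h1
  refine ⟨k, c, ?_⟩
  have hd : (q.den : ℚ) ≠ 0 := by exact_mod_cast q.den_ne_zero
  have hc' : (N : ℚ) ^ k = q.den * c := by exact_mod_cast hc
  rw [eq_div_iff hN0, hc']
  field_simp

theorem unit_fin (β : Qbar) (hβ : β ≠ 0) (N₀ : ℕ) (hN₀ : N₀ ≠ 0) :
    {e : Qbar | ∃ (N : ℕ) (γ : ℚ), γ ≠ 0 ∧ LocN N₀ γ ∧ LocN N₀ γ⁻¹ ∧ e = β ^ N / (γ : Qbar) ∧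
      ∃ (a : ℤ[X]) (r : ℤ), r ≠ 0 ∧ LocN N₀ ((r : ℚ)⁻¹) ∧
        ((γ.den : Qbar) * β ^ N - (γ.num : Qbar)) * aeval β a = (r : Qbar)}.Finite := by
  classical
  have hint : ∀ x ∈ ({β} : Set Qbar), IsIntegral ℚ x := fun x _ =>
    ((AlgebraicClosure.isAlgebraic ℚ).isAlgebraic x).isIntegral
  let K : IntermediateField ℚ Qbar := IntermediateField.adjoin ℚ {β}
  have hfd : FiniteDimensional ℚ K := IntermediateField.finiteDimensional_adjoin hint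
  have hNF : NumberField K := { to_charZero := inferInstance, to_finiteDimensional := hfd }
  have hK1 : β ∈ K := IntermediateField.subset_adjoin ℚ _ (by simp)
  have hKN : ((N₀ : ℕ) : Qbar) ∈ K := natCast_mem K N₀
  let s : Set Qbar := {β, β⁻¹, ((N₀ : ℕ) : Qbar)⁻¹}
  have hs : s.Finite := by
    simp only [s]
    exact Set.toFinite _
  have hsK : ∀ w ∈ s, w ∈ K := by
    intro w hw
    simp only [s, Set.mem_insert_iff, Set.mem_singleton_iff] at hw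
    rcases hw with rfl | rfl | rfl
    · exact hK1
    · exact K.inv_mem hK1
    · exact K.inv_mem hKN
  obtain ⟨S, hSd⟩ : ∃ S : Set (HeightOneSpectrum (𝓞 K)), S = {v | ∃ w ∈ s, w ∉ Ov v} := ⟨_, rfl⟩
  have hS : S.Finite := by
    rw [hSd]
    exact bad_finite s hs hsK
  have hgood : ∀ v, v ∉ S → ∀ w ∈ s, w ∈ Ov v := by
    intro v hv w hw
    by_contra hc
    apply hv
    rw [hSd]
    exact ⟨w, hw, hc⟩
  have hfin := unit_eq (GS S) (GS_fg S hS)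
  refine hfin.subset ?_
  rintro e ⟨N, γ, hγ0, hγ, hγi, rfl, a, r, hr0, hr, hpr⟩
  have hγK : ((γ : ℚ) : Qbar) ∈ K := SubfieldClass.ratCast_mem K γ
  have hγQ : ((γ : ℚ) : Qbar) ≠ 0 := by exact_mod_cast hγ0
  have hrQ : ((r : ℤ) : Qbar) ≠ 0 := by exact_mod_cast hr0
  have hdQ : ((γ.den : ℕ) : Qbar) ≠ 0 := by exact_mod_cast γ.den_ne_zero
  have hdγ : (γ.den : Qbar) * ((γ : ℚ) : Qbar) = (γ.num : Qbar) := by
    rw [mul_comm]
    exact_mod_cast congrArg (Rat.cast : ℚ → Qbar) (Rat.mul_den_eq_num γ)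
  set F : Qbar := (γ.den : Qbar) * β ^ N - (γ.num : Qbar) with hF
  have hF0 : F ≠ 0 := by
    intro h
    rw [h, zero_mul] at hpr
    exact hrQ hpr.symm
  have hFe : F = (γ.den : Qbar) * (β ^ N - (γ : Qbar)) := by
    rw [hF, ← hdγ]
    ring
  have hb : β ^ N - (γ : Qbar) ≠ 0 := by
    intro h
    rw [hFe, h, mul_zero] at hF0
    exact hF0 rfl
  have hu0 : β ^ N / (γ : Qbar) ≠ 0 := div_ne_zero (pow_ne_zero N hβ) hγQ
  have hw0 : -((β ^ N - (γ : Qbar)) / (γ : Qbar)) ≠ 0 := neg_ne_zero.2 (div_ne_zero hb hγQ)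
  have hOv : ∀ v, v ∉ S → ((γ : Qbar) ∈ Ov v ∧ (γ : Qbar)⁻¹ ∈ Ov v) ∧
      (β ^ N ∈ Ov v ∧ (β ^ N)⁻¹ ∈ Ov v) ∧ (β ^ N - (γ : Qbar))⁻¹ ∈ Ov v := by
    intro v hv
    have hNv : ((N₀ : ℕ) : Qbar)⁻¹ ∈ Ov v := hgood v hv _ (by simp [s])
    have hβv : β ∈ Ov v := hgood v hv _ (by simp [s])
    have hβi : β⁻¹ ∈ Ov v := hgood v hv _ (by simp [s])
    have h1 : (γ : Qbar) ∈ Ov v := hγ.mem _ hNv
    have h2 : (γ : Qbar)⁻¹ ∈ Ov v := by
      rw [← Rat.cast_inv]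
      exact hγi.mem _ hNv
    refine ⟨⟨h1, h2⟩, ⟨(Ov v).pow_mem hβv N, by rw [← inv_pow]; exact (Ov v).pow_mem hβi N⟩, ?_⟩
    have h3 : (β ^ N - (γ : Qbar))⁻¹ = (γ.den : Qbar) * (aeval β a * ((r : ℚ)⁻¹ : ℚ)) := by
      have h4 : aeval β a = (r : Qbar) / F := by
        rw [eq_div_iff hF0, mul_comm]
        exact hpr
      rw [h4, hFe]
      push_cast
      field_simp
    rw [h3]
    refine (Ov v).mul_mem (natCast_mem _ _) ((Ov v).mul_mem ?_ (hr.mem _ hNv))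
    rw [aeval_eq_sum_range]
    refine Subring.sum_mem _ fun i _ => ?_
    rw [zsmul_eq_mul]
    exact (Ov v).mul_mem (intCast_mem _ _) ((Ov v).pow_mem hβv i)
  have hg1 : Units.mk0 (β ^ N / (γ : Qbar)) hu0 ∈ GS S := by
    refine mem_GS _ (K.div_mem (pow_mem hK1 N) hγK) fun v hv => ?_
    obtain ⟨⟨h1, h2⟩, ⟨h3, h4⟩, -⟩ := hOv v hv
    refine ⟨?_, ?_⟩
    · rw [div_eq_mul_inv]
      exact (Ov v).mul_mem h3 h2
    · rw [div_eq_mul_inv, mul_inv, inv_inv]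
      exact (Ov v).mul_mem h4 h1
  have hg2 : Units.mk0 (-((β ^ N - (γ : Qbar)) / (γ : Qbar))) hw0 ∈ GS S := by
    refine mem_GS _ (K.neg_mem (K.div_mem (K.sub_mem (pow_mem hK1 N) hγK) hγK)) fun v hv => ?_
    obtain ⟨⟨h1, h2⟩, ⟨h3, h4⟩, h5⟩ := hOv v hv
    refine ⟨?_, ?_⟩
    · rw [div_eq_mul_inv]
      exact (Ov v).neg_mem ((Ov v).mul_mem ((Ov v).sub_mem h3 h1) h2)
    · rw [div_eq_mul_inv, inv_neg, mul_inv, inv_inv]
      exact (Ov v).neg_mem ((Ov v).mul_mem h5 h1)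
  refine ⟨_, hg1, _, hg2, rfl, ?_⟩
  rw [Units.val_mk0, Units.val_mk0]
  field_simp
  ring

end Pool.Agent.V1138.KR
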