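import Mathlib
import Pool.Agent.V1138.KR.Unit
import Pool.Agent.V1138.BO.Many
import Pool.Agent.V1138.FZ.Many

/-!
# Values of a rational function at pure radicals: the values of the minimal polynomials have large
prime factors
-/

set_option autoImplicit false

namespace Pool.Agent.V1138.KR

open Polynomial
open Pool.Agent.Helper259.AbsHt
open Pool.Agent.Y152.BD (Nv Nv_map)
open Pool.Agent.V1138.BO (LocN inv_locN)
open Pool.Agent.V1138.FZ (bez hcomp aeval_hcomp exists_irr)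

/-- the polynomial `X ^ N - γ` without denominators -/
noncomputable def kp (N : ℕ) (γ : ℚ) : ℤ[X] := C (γ.den : ℤ) * X ^ N - C γ.num

theorem kp_prim {N : ℕ} (hN : 0 < N) (γ : ℚ) : (kp N γ).IsPrimitive := by
  intro r hr
  rw [C_dvd_iff_dvd_coeff] at hr
  have h1 := hr N
  have h2 := hr 0
  rw [kp, coeff_sub, coeff_C_mul, coeff_X_pow_self, mul_one, coeff_C_of_ne_zero hN.ne', sub_zero] at h1
  rw [kp, coeff_sub, coeff_C_mul, coeff_X_pow, if_neg hN.ne, mul_zero, coeff_C_zero, zero_sub,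
    dvd_neg] at h2
  have h3 : r.natAbs ∣ Nat.gcd γ.num.natAbs γ.den := by
    refine Nat.dvd_gcd (Int.natAbs_dvd_natAbs.2 h2) ?_
    have h4 := Int.natAbs_dvd_natAbs.2 h1
    rwa [Int.natAbs_natCast] at h4
  rw [γ.reduced] at h3
  exact Int.isUnit_iff_natAbs_eq.2 (Nat.dvd_one.1 h3)

theorem kp_deg {N : ℕ} (hN : 0 < N) (γ : ℚ) : (kp N γ).natDegree = N := by
  have h1 : ((γ.den : ℕ) : ℤ) ≠ 0 := by exact_mod_cast γ.den_ne_zero
  rw [kp, natDegree_sub_C, natDegree_C_mul_X_pow N _ h1]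

theorem kp_lead {N : ℕ} (hN : 0 < N) (γ : ℚ) : (kp N γ).leadingCoeff = (γ.den : ℤ) := by
  rw [leadingCoeff, kp_deg hN, kp, coeff_sub, coeff_C_mul, coeff_X_pow_self, mul_one,
    coeff_C_of_ne_zero hN.ne', sub_zero]

theorem aeval_kp {A : Type*} [CommRing A] (N : ℕ) (γ : ℚ) (x : A) :
    aeval x (kp N γ) = (γ.den : A) * x ^ N - (γ.num : A) := by
  rw [kp, map_sub, map_mul, map_pow, aeval_X, aeval_C, aeval_C]
  simp

theorem aeval_kp' (N : ℕ) (γ : ℚ) (x : Qbar) :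
    aeval x (kp N γ) = (γ.den : Qbar) * x ^ N - (γ.num : Qbar) := by
  rw [kp, map_sub, map_mul, map_pow, aeval_X, aeval_C, aeval_C]
  simp

/-- A polynomial with integral coefficients vanishing at a pure radical is divisible by `kp`. -/
theorem kp_dvd {N : ℕ} (hN : 0 < N) {γ : ℚ} {ξ : ℂ} (hξ : ξ ^ N = (γ : ℂ))
    (hdeg : N ≤ (minpoly ℚ ξ).natDegree) (H : ℤ[X]) (hH : aeval ξ H = 0) : kp N γ ∣ H := by
  have hmapv : ∀ P : ℤ[X], aeval ξ (P.map (Int.castRingHom ℚ)) = aeval ξ P := fun P =>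
    aeval_map_algebraMap ℚ ξ P
  have hmon : (X ^ N - C γ : ℚ[X]).Monic := monic_X_pow_sub_C γ hN.ne'
  have h0 : aeval ξ (X ^ N - C γ : ℚ[X]) = 0 := by
    rw [map_sub, map_pow, aeval_X, aeval_C, hξ]
    simp
  have hint : IsIntegral ℚ ξ := ⟨X ^ N - C γ, hmon, h0⟩
  have h1 : minpoly ℚ ξ = X ^ N - C γ :=
    (eq_of_monic_of_dvd_of_natDegree_le (minpoly.monic hint) hmon (minpoly.dvd ℚ ξ h0)
      (by rw [natDegree_X_pow_sub_C]; exact hdeg)).symm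
  have h2 : (kp N γ).map (Int.castRingHom ℚ) = C (γ.den : ℚ) * minpoly ℚ ξ := by
    rw [h1, kp, Polynomial.map_sub, Polynomial.map_mul, Polynomial.map_pow, map_X, map_C, map_C,
      mul_sub, ← C_mul]
    congr 2
    have := Rat.mul_den_eq_num γ
    rw [mul_comm] at this
    rw [this]
    rfl
  rw [IsPrimitive.Int.dvd_iff_map_cast_dvd_map_cast _ _ (kp_prim hN γ), h2]
  have h3 : minpoly ℚ ξ ∣ H.map (Int.castRingHom ℚ) := minpoly.dvd ℚ ξ (by rw [hmapv, hH])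
  have h4 : IsUnit (C (γ.den : ℚ)) := isUnit_C.2 (isUnit_iff_ne_zero.2 (by
    exact_mod_cast γ.den_ne_zero))
  exact (h4.mul_left_dvd).2 h3

theorem hcomp_root {P Q G : ℤ[X]} {ξ t : ℂ} (hQ : aeval ξ Q ≠ 0) (ht : t = aeval ξ P / aeval ξ Q)
    (hGt : aeval t G = 0) : aeval ξ (hcomp G P Q) = 0 := by
  rw [aeval_hcomp]
  have h2 : ∀ i ∈ Finset.range (G.natDegree + 1), (G.coeff i : ℂ) * aeval ξ P ^ i *
      aeval ξ Q ^ (G.natDegree - i) = aeval ξ Q ^ G.natDegree * ((G.coeff i : ℂ) * t ^ i) := by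
    intro i hi
    rw [Finset.mem_range] at hi
    have h3 : aeval ξ P = t * aeval ξ Q := by
      rw [ht]
      field_simp
    have h4 : aeval ξ Q ^ G.natDegree = aeval ξ Q ^ i * aeval ξ Q ^ (G.natDegree - i) := by
      rw [← pow_add]
      congr 1
      omega
    rw [h4, h3, mul_pow]
    ring
  rw [Finset.sum_congr rfl h2, ← Finset.mul_sum]
  have h5 : ∑ i ∈ Finset.range (G.natDegree + 1), (G.coeff i : ℂ) * t ^ i = aeval t G := by
    rw [aeval_eq_sum_range]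
    simp [zsmul_eq_mul]
  rw [h5, hGt, mul_zero]

theorem near_z {P Q G h : ℤ[X]} {a b : ℤ[X]} {ρ : ℤ} (hab : a * P + b * Q = C ρ) (α : ℚ)
    (hh : h ∣ C α.num * Q - C (α.den : ℤ) * P) (p : ℕ) (hp : p.Prime) (hpρ : ¬ (p : ℤ) ∣ ρ)
    {k : Type} [Field k] [CharP k p] (z : k) (h2 : aeval z (hcomp G P Q) = 0)
    (hz0 : aeval z h = 0) : (p : ℤ) ∣ Nv G α := by
  have h3 : (α.num : k) * aeval z Q = (α.den : k) * aeval z P := by
    obtain ⟨q, hq⟩ := hh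
    have h4 := congrArg (aeval z) hq
    rw [map_mul, hz0, zero_mul, map_sub, map_mul, map_mul, aeval_C, aeval_C, sub_eq_zero] at h4
    simpa using h4
  have hρ : (ρ : k) ≠ 0 := fun h4 => hpρ ((CharP.intCast_eq_zero_iff k p _).1 h4)
  have hab' : aeval z a * aeval z P + aeval z b * aeval z Q = (ρ : k) := by
    have h4 := congrArg (aeval z) hab
    rw [map_add, map_mul, map_mul, aeval_C] at h4
    simpa using h4
  have hcop : (α.num : k) = 0 → (α.den : k) = 0 → False := by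
    intro h4 h5
    have h6 : (p : ℤ) ∣ α.num := (CharP.intCast_eq_zero_iff k p _).1 h4
    have h7 : p ∣ α.den := (CharP.cast_eq_zero_iff k p _).1 h5
    have h8 : p ∣ Nat.gcd α.num.natAbs α.den := Nat.dvd_gcd (Int.natCast_dvd.1 h6) h7
    rw [α.reduced] at h8
    exact hp.one_lt.ne' (Nat.dvd_one.1 h8)
  obtain ⟨l, hl, hlP, hlQ⟩ : ∃ l : k, l ≠ 0 ∧ aeval z P = l * (α.num : k) ∧
      aeval z Q = l * (α.den : k) := by
    by_cases hQz : aeval z Q = 0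
    · have hPz : aeval z P ≠ 0 := by
        intro h4
        rw [h4, hQz, mul_zero, mul_zero, add_zero] at hab'
        exact hρ hab'.symm
      rw [hQz, mul_zero] at h3
      have h5 : (α.den : k) = 0 := by
        rcases mul_eq_zero.1 h3.symm with h6 | h6
        · exact h6
        · exact absurd h6 hPz
      have h6 : (α.num : k) ≠ 0 := fun h7 => hcop h7 h5
      refine ⟨aeval z P / α.num, div_ne_zero hPz h6, ?_, ?_⟩
      · field_simp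
      · rw [hQz, h5, mul_zero]
    · have h5 : (α.den : k) ≠ 0 := by
        intro h6
        rw [h6, zero_mul] at h3
        rcases mul_eq_zero.1 h3 with h7 | h7
        · exact hcop h7 h6
        · exact hQz h7
      refine ⟨aeval z Q / α.den, div_ne_zero hQz h5, ?_, ?_⟩
      · field_simp
        linear_combination -h3
      · field_simp
  rw [aeval_hcomp] at h2
  have h4 : l ^ G.natDegree * ((Nv G α : ℤ) : k) = 0 := by
    rw [← h2, Nv, Int.cast_sum, Finset.mul_sum]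
    refine Finset.sum_congr rfl fun i hi => ?_
    rw [Finset.mem_range] at hi
    have h5 : l ^ G.natDegree = l ^ i * l ^ (G.natDegree - i) := by
      rw [← pow_add]
      congr 1
      omega
    rw [h5, hlP, hlQ, mul_pow, mul_pow]
    push_cast
    ring
  rcases mul_eq_zero.1 h4 with h5 | h5
  · exact absurd h5 (pow_ne_zero _ hl)
  · exact (CharP.intCast_eq_zero_iff k p _).1 h5

/-- A prime number which divides the resultant but not the leading coefficient gives a common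
zero. -/
theorem common_zero {F h : ℤ[X]} (p : ℕ) [hp : Fact p.Prime] (hlead : ¬ (p : ℤ) ∣ F.leadingCoeff)
    (hd : (p : ℤ) ∣ resultant F h) :
    ∃ (k : Type) (_ : Field k) (_ : CharP k p) (z : k), aeval z F = 0 ∧ aeval z h = 0 := by
  suffices hs : ∀ (k : Type) [Field k] [IsAlgClosed k] [CharP k p],
      ∃ z : k, aeval z F = 0 ∧ aeval z h = 0 from
    ⟨AlgebraicClosure (ZMod p), inferInstance, inferInstance, hs _⟩
  intro k _ _ hk
  have h1 : ((resultant F h : ℤ) : k) = 0 := (CharP.intCast_eq_zero_iff k p _).2 hd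
  have hl : (Int.castRingHom k) F.leadingCoeff ≠ 0 := fun h2 =>
    hlead ((CharP.intCast_eq_zero_iff k p _).1 h2)
  have hdeg : (F.map (Int.castRingHom k)).natDegree = F.natDegree := natDegree_map_of_leadingCoeff_ne_zero _ hl
  have h2 : resultant (F.map (Int.castRingHom k)) (h.map (Int.castRingHom k))
      (F.map (Int.castRingHom k)).natDegree h.natDegree = 0 := by
    rw [hdeg, resultant_map_map]
    exact h1
  rw [resultant_eq_prod_eval _ _ _ natDegree_map_le (IsAlgClosed.splits _)] at h2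
  have h3 : (F.map (Int.castRingHom k)).leadingCoeff ^ h.natDegree ≠ 0 := by
    refine pow_ne_zero _ ?_
    rw [leadingCoeff_map_of_leadingCoeff_ne_zero _ hl]
    exact hl
  have h4 := (mul_eq_zero.1 h2).resolve_left h3
  obtain ⟨z, hz, hz0⟩ := Multiset.mem_map.1 (Multiset.prod_eq_zero_iff.1 h4)
  refine ⟨z, ?_, ?_⟩
  · have h5 := (mem_roots'.1 hz).2
    rw [IsRoot.def, eval_map] at h5
    rw [aeval_def]
    exact h5
  · rw [← hz0, eval_map, aeval_def]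
    rfl

theorem den_dvd {N : ℕ} {q : ℚ} (h : LocN N q) : ∃ k : ℕ, q.den ∣ N ^ k := by
  obtain ⟨k, m, hq⟩ := h
  refine ⟨k, ?_⟩
  have h2 : q = Rat.divInt m ((N : ℤ) ^ k) := by
    rw [Rat.divInt_eq_div, hq]
    push_cast
    rfl
  have h3 : (q.den : ℤ) ∣ (N : ℤ) ^ k := by
    rw [h2]
    exact Rat.den_dvd m ((N : ℤ) ^ k)
  exact_mod_cast h3

theorem of_den_dvd {N : ℕ} (hN : N ≠ 0) {q : ℚ} {k : ℕ} (h : q.den ∣ N ^ k) : LocN N q := by
  obtain ⟨c, hc⟩ := h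
  refine ⟨k, q.num * c, ?_⟩
  have hN0 : (N : ℚ) ^ k ≠ 0 := pow_ne_zero k (by exact_mod_cast hN)
  have hc' : (N : ℚ) ^ k = q.den * c := by exact_mod_cast hc
  rw [eq_div_iff hN0, hc', ← mul_assoc, Rat.mul_den_eq_num]
  push_cast
  ring

theorem of_pow {N : ℕ} (hN : N ≠ 0) {q : ℚ} {m : ℕ} (hm : 0 < m) (h : LocN N (q ^ m)) :
    LocN N q := by
  obtain ⟨k, hk⟩ := den_dvd h
  rw [Rat.den_pow] at hk
  exact of_den_dvd hN ((dvd_pow_self _ hm.ne').trans hk)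

theorem loc_mono {N M : ℕ} (hM : M ≠ 0) {q : ℚ} (hN : N ≠ 0) (h : LocN N q) :
    LocN (M * N) q := by
  obtain ⟨k, hk⟩ := den_dvd h
  refine of_den_dvd (mul_ne_zero hM hN) (k := k) (hk.trans ?_)
  rw [mul_pow]
  exact dvd_mul_left _ _

/-- some power of `γ` is in `Γ` -/
def Sat (Γ : Subgroup ℚˣ) (γ : ℚˣ) : Prop := ∃ m : ℕ, 0 < m ∧ γ ^ m ∈ Γ

theorem loc_fg (Γ : Subgroup ℚˣ) (hΓ : Γ.FG) : ∃ N : ℕ, N ≠ 0 ∧ ∀ γ ∈ Γ,
    LocN N (γ : ℚ) ∧ LocN N ((γ : ℚ)⁻¹) := by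
  classical
  obtain ⟨T, rfl⟩ := hΓ
  set N : ℕ := ∏ γ ∈ T, ((γ : ℚ).den * ((γ : ℚ)⁻¹).den) with hN
  have hN0 : N ≠ 0 := Finset.prod_ne_zero_iff.2 fun γ _ =>
    mul_ne_zero (γ : ℚ).den_ne_zero ((γ : ℚ)⁻¹).den_ne_zero
  refine ⟨N, hN0, fun γ hγ => ?_⟩
  induction hγ using Subgroup.closure_induction with
  | mem γ hγ =>
    have h1 := Finset.dvd_prod_of_mem (fun γ : ℚˣ => (γ : ℚ).den * ((γ : ℚ)⁻¹).den)
      (Finset.mem_coe.1 hγ)
    refine ⟨of_den_dvd hN0 (k := 1) ?_, of_den_dvd hN0 (k := 1) ?_⟩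
    · rw [pow_one]
      exact (dvd_mul_right _ _).trans h1
    · rw [pow_one]
      exact (dvd_mul_left _ _).trans h1
  | one =>
    rw [Units.val_one, inv_one]
    exact ⟨LocN.one N, LocN.one N⟩
  | mul x y _ _ hx hy =>
    rw [Units.val_mul, mul_inv]
    exact ⟨hx.1.mul hy.1, hx.2.mul hy.2⟩
  | inv x _ hx =>
    rw [Units.val_inv_eq_inv_val, inv_inv]
    exact ⟨hx.2, hx.1⟩

theorem loc_sat {Γ : Subgroup ℚˣ} {N : ℕ} (hN : N ≠ 0)
    (h : ∀ γ ∈ Γ, LocN N (γ : ℚ) ∧ LocN N ((γ : ℚ)⁻¹)) {γ : ℚˣ} (hγ : Sat Γ γ) :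
    LocN N (γ : ℚ) ∧ LocN N ((γ : ℚ)⁻¹) := by
  obtain ⟨m, hm, hγm⟩ := hγ
  obtain ⟨h1, h2⟩ := h _ hγm
  rw [Units.val_pow_eq_pow_val] at h1 h2
  rw [← inv_pow] at h2
  exact ⟨of_pow hN hm h1, of_pow hN hm h2⟩

theorem fin_pairs (β : Qbar) (hβ0 : β ≠ 0) (Γ : Subgroup ℚˣ) {N₁ : ℕ} (hN₁ : N₁ ≠ 0)
    (hloc : ∀ γ ∈ Γ, LocN N₁ (γ : ℚ) ∧ LocN N₁ ((γ : ℚ)⁻¹))
    (hβ : ∀ m : ℕ, 0 < m → ∀ γ ∈ Γ, β ^ m ≠ ((γ : ℚ) : Qbar)) (h : ℤ[X]) (hh : aeval β h = 0)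
    (D : ℕ) : {x : ℕ × ℚˣ | 0 < x.1 ∧ Sat Γ x.2 ∧ ∀ p : ℕ, p.Prime → D < p →
      ¬ (p : ℤ) ∣ resultant (kp x.1 (x.2 : ℚ)) h}.Finite := by
  classical
  have hD : D.factorial ≠ 0 := Nat.factorial_ne_zero D
  have hN₀ : D.factorial * N₁ ≠ 0 := mul_ne_zero hD hN₁
  have hfin := unit_fin β hβ0 (D.factorial * N₁) hN₀
  refine Set.Finite.of_finite_image (f := fun x : ℕ × ℚˣ => β ^ x.1 / (((x.2 : ℚˣ) : ℚ) : Qbar))
    (hfin.subset ?_) ?_
  · rintro _ ⟨⟨N, γ⟩, ⟨hN, hγ, hres⟩, rfl⟩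
    obtain ⟨h1, h2⟩ := loc_sat hN₁ hloc hγ
    refine ⟨N, (γ : ℚ), γ.ne_zero, loc_mono hD hN₁ h1, loc_mono hD hN₁ h2, rfl, ?_⟩
    obtain ⟨a, b, -, -, hab⟩ := exists_mul_add_mul_eq_C_resultant (kp N (γ : ℚ)) h
      (m := (kp N (γ : ℚ)).natDegree) (n := h.natDegree) le_rfl le_rfl
      (Or.inl (by rw [kp_deg hN]; exact hN.ne'))
    set r : ℤ := resultant (kp N (γ : ℚ)) h with hr
    have hr0 : r ≠ 0 := by
      intro h0
      obtain ⟨p, hpD, hp⟩ := Nat.exists_infinite_primes (D + 1)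
      exact hres p hp (by omega) (by rw [h0]; exact dvd_zero _)
    refine ⟨a, r, hr0, inv_locN hN₀ (fun p hp hpD => Dvd.dvd.mul_right
      ((hp.dvd_factorial).2 hpD) _) r hr0 hres, ?_⟩
    have h3 := congrArg (aeval β) hab
    rw [map_add, map_mul, map_mul, hh, zero_mul, add_zero, aeval_kp', aeval_C] at h3
    simpa using h3
  · have key : ∀ (N N' : ℕ) (γ γ' : ℚˣ), Sat Γ γ → Sat Γ γ' →
        β ^ N / ((γ : ℚ) : Qbar) = β ^ N' / ((γ' : ℚ) : Qbar) → N ≤ N' → N = N' := by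
      intro N N' γ γ' hγ hγ' he hle
      by_contra hne
      obtain ⟨d, rfl⟩ := Nat.exists_eq_add_of_le hle
      have hd : 0 < d := by omega
      obtain ⟨m, hm, hγm⟩ := hγ
      obtain ⟨m', hm', hγm'⟩ := hγ'
      have hg : ((γ : ℚ) : Qbar) ≠ 0 := by exact_mod_cast γ.ne_zero
      have hg' : ((γ' : ℚ) : Qbar) ≠ 0 := by exact_mod_cast γ'.ne_zero
      have hβN : β ^ N ≠ 0 := pow_ne_zero N hβ0
      have h1 : β ^ d = (((γ' / γ : ℚˣ) : ℚ) : Qbar) := by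
        rw [div_eq_div_iff hg hg', pow_add] at he
        have h2 : ((γ' : ℚ) : Qbar) = β ^ d * ((γ : ℚ) : Qbar) := by
          apply mul_left_cancel₀ hβN
          rw [he]
          ring
        rw [Units.val_div_eq_div_val, Rat.cast_div, h2]
        field_simp
      have h2 : (γ' / γ) ^ (m * m') ∈ Γ := by
        rw [div_pow]
        refine Γ.div_mem ?_ ?_
        · rw [mul_comm, pow_mul]
          exact Γ.pow_mem hγm' m
        · rw [pow_mul]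
          exact Γ.pow_mem hγm m'
      refine hβ (d * (m * m')) (Nat.mul_pos hd (Nat.mul_pos hm hm')) _ h2 ?_
      rw [pow_mul, h1, Units.val_pow_eq_pow_val, Rat.cast_pow]
    rintro ⟨N, γ⟩ ⟨hN, hγ, -⟩ ⟨N', γ'⟩ ⟨hN', hγ', -⟩ he
    have he' : β ^ N / ((γ : ℚ) : Qbar) = β ^ N' / ((γ' : ℚ) : Qbar) := he
    have hNN : N = N' := by
      rcases le_total N N' with hle | hle
      · exact key N N' γ γ' hγ hγ' he' hle
      · exact (key N' N γ' γ hγ' hγ he'.symm hle).symm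
    subst hNN
    have hg : ((γ : ℚ) : Qbar) ≠ 0 := by exact_mod_cast γ.ne_zero
    have hg' : ((γ' : ℚ) : Qbar) ≠ 0 := by exact_mod_cast γ'.ne_zero
    rw [div_eq_div_iff hg hg'] at he'
    have h1 := mul_left_cancel₀ (pow_ne_zero N hβ0) he'
    have h2 : (γ' : ℚ) = (γ : ℚ) := by exact_mod_cast h1
    rw [Units.ext h2]

/-- `ξ` is a zero of `X ^ N - γ`, has degree `N`, and some power of `γ` is in `Γ`. -/
def Pure (Γ : Subgroup ℚˣ) (ξ : ℂ) : Prop :=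
  ∃ N : ℕ, 0 < N ∧ ∃ γ : ℚˣ, (∃ m : ℕ, 0 < m ∧ γ ^ m ∈ Γ) ∧ ξ ^ N = ((γ : ℚ) : ℂ) ∧
    N ≤ (minpoly ℚ ξ).natDegree

/-- `t = P (ξ) / Q (ξ)` for a pure radical `ξ`. -/
def IsValue (Γ : Subgroup ℚˣ) (P Q : ℤ[X]) (t : ℂ) : Prop :=
  ∃ ξ : ℂ, Pure Γ ξ ∧ aeval ξ Q ≠ 0 ∧ t = aeval ξ P / aeval ξ Q

theorem alg_of_value (Γ : Subgroup ℚˣ) (P Q : ℤ[X]) (t : ℂ) (h : IsValue Γ P Q t) :
    IsAlgebraic ℤ t := by
  obtain ⟨ξ, ⟨N, hN, γ, -, hξ, -⟩, -, rfl⟩ := h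
  have h1 : IsAlgebraic ℤ ξ := by
    refine ⟨kp N γ, ?_, ?_⟩
    · intro h0
      have h2 := kp_deg hN (γ : ℚ)
      rw [h0, natDegree_zero] at h2
      omega
    · rw [aeval_kp, hξ]
      have h3 := congrArg (Rat.cast : ℚ → ℂ) (Rat.mul_den_eq_num (γ : ℚ))
      push_cast at h3
      rw [mul_comm, h3, sub_self]
  have h1' : IsIntegral ℚ ξ :=
    isAlgebraic_iff_isIntegral.1 ((IsFractionRing.isAlgebraic_iff ℤ ℚ ℂ).1 h1)
  have h2 : ∀ F : ℤ[X], IsAlgebraic ℤ (aeval ξ F) := fun F => by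
    rw [IsFractionRing.isAlgebraic_iff ℤ ℚ ℂ, isAlgebraic_iff_isIntegral,
      ← aeval_map_algebraMap ℚ ξ F]
    exact adjoin_le_integralClosure h1' (aeval_mem_adjoin_singleton ℚ ξ)
  rw [div_eq_mul_inv]
  exact (h2 P).mul (h2 Q).inv

/-- the roots in `ℂ` come from `ℚ̄` -/
theorem exists_qbar {h : ℤ[X]} (h0 : h ≠ 0) {x : ℂ} (hx : aeval x h = 0) :
    ∃ (φ : Qbar →+* ℂ) (β : Qbar), φ β = x ∧ aeval β h = 0 := by
  have hal : Algebra.IsAlgebraic ℚ Qbar := AlgebraicClosure.isAlgebraic ℚ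
  let φ : Qbar →ₐ[ℚ] ℂ := IsAlgClosed.lift
  have hs : (h.map (Int.castRingHom Qbar)).Splits := IsAlgClosed.splits _
  have h1 : (h.map (Int.castRingHom ℂ)).roots =
      (h.map (Int.castRingHom Qbar)).roots.map (φ : Qbar →+* ℂ) := by
    rw [← hs.roots_map, map_map]
    congr 2
    exact RingHom.ext_int _ _
  have h2 : x ∈ (h.map (Int.castRingHom ℂ)).roots := by
    rw [mem_roots', IsRoot.def, eval_map]
    refine ⟨(Polynomial.map_ne_zero_iff (Int.castRingHom ℂ).injective_int).2 h0, ?_⟩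
    rw [aeval_def] at hx
    exact hx
  rw [h1] at h2
  obtain ⟨β, hβ, hβx⟩ := Multiset.mem_map.1 h2
  refine ⟨φ, β, hβx, ?_⟩
  have h3 := (mem_roots'.1 hβ).2
  rw [IsRoot.def, eval_map] at h3
  rw [aeval_def, ← h3]
  congr 1

theorem finite_value (Γ : Subgroup ℚˣ) (hΓ : Γ.FG) {P Q : ℤ[X]} {a b : ℤ[X]} {ρ : ℤ}
    (hρ : ρ ≠ 0) (hab : a * P + b * Q = C ρ) (α : ℚ)
    (hα : ∃ x : ℂ, x ≠ 0 ∧ aeval x P = (α : ℂ) * aeval x Q ∧
      ∀ m : ℕ, 0 < m → ∀ γ ∈ Γ, x ^ m ≠ ((γ : ℚ) : ℂ)) (D : ℕ) :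
    {t : ℂ | IsValue Γ P Q t ∧ ∃ G : ℤ[X], aeval t G = 0 ∧
      ∀ p : ℕ, p.Prime → D < p → ¬ (p : ℤ) ∣ Nv G α}.Finite := by
  classical
  set h : ℤ[X] := C α.num * Q - C (α.den : ℤ) * P with hh
  have hd0 : (α.den : ℂ) ≠ 0 := by exact_mod_cast α.den_ne_zero
  have hαd : (α : ℂ) * (α.den : ℂ) = (α.num : ℂ) := by
    exact_mod_cast congrArg (Rat.cast : ℚ → ℂ) (Rat.mul_den_eq_num α)
  have hev : ∀ x : ℂ, aeval x h = (α.den : ℂ) * ((α : ℂ) * aeval x Q - aeval x P) := by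
    intro x
    have h3 : aeval x h = (α.num : ℂ) * aeval x Q - (α.den : ℂ) * aeval x P := by
      rw [hh, map_sub, map_mul, map_mul, aeval_C, aeval_C]
      simp
    rw [h3, ← hαd]
    ring
  by_cases h0 : h = 0
  · refine (Set.finite_singleton (α : ℂ)).subset ?_
    rintro t ⟨⟨ξ, -, hQ, ht⟩, -⟩
    have h3 := hev ξ
    rw [h0, map_zero] at h3
    have h4 := (mul_eq_zero.1 h3.symm).resolve_left hd0
    rw [Set.mem_singleton_iff, ht, ← sub_eq_zero.1 h4]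
    field_simp
  obtain ⟨x, hx0, hx, hxΓ⟩ := hα
  have hxh : aeval x h = 0 := by rw [hev, hx, sub_self, mul_zero]
  obtain ⟨φ, β, hβx, hβh⟩ := exists_qbar h0 hxh
  have hβ0 : β ≠ 0 := by
    rintro rfl
    rw [map_zero] at hβx
    exact hx0 hβx.symm
  have hβΓ : ∀ m : ℕ, 0 < m → ∀ γ ∈ Γ, β ^ m ≠ ((γ : ℚ) : Qbar) := by
    intro m hm γ hγ he
    apply hxΓ m hm γ hγ
    rw [← hβx, ← map_pow, he, map_ratCast]
  obtain ⟨N₁, hN₁, hloc⟩ := loc_fg Γ hΓ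
  have hfin := fin_pairs β hβ0 Γ hN₁ hloc hβΓ h hβh (max D (max ρ.natAbs N₁))
  have hroots : ∀ y : ℕ × ℚˣ, 0 < y.1 → {ξ : ℂ | ξ ^ y.1 = (((y.2 : ℚˣ) : ℚ) : ℂ)}.Finite := by
    intro y hy
    have h3 : (X ^ y.1 - C (((y.2 : ℚˣ) : ℚ) : ℂ) : ℂ[X]) ≠ 0 := X_pow_sub_C_ne_zero hy _
    refine ((X ^ y.1 - C (((y.2 : ℚˣ) : ℚ) : ℂ) : ℂ[X]).roots.toFinset.finite_toSet).subset
      fun t ht => ?_
    rw [Finset.mem_coe, Multiset.mem_toFinset, mem_roots h3, IsRoot.def, eval_sub, eval_pow, eval_X,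
      eval_C]
    exact sub_eq_zero.2 ht
  refine ((hfin.biUnion (t := fun y => {ξ : ℂ | 0 < y.1 ∧ ξ ^ y.1 = (((y.2 : ℚˣ) : ℚ) : ℂ)})
    fun y hy => (hroots y hy.1).subset fun ξ hξ => hξ.2).image
      fun ξ => aeval ξ P / aeval ξ Q).subset ?_
  rintro t ⟨⟨ξ, ⟨N, hN, γ, hγ, hξ, hdeg⟩, hQ, ht⟩, G, hG, hbad⟩
  refine ⟨ξ, Set.mem_biUnion (x := (N, γ)) ?_ ⟨hN, hξ⟩, ht.symm⟩
  refine ⟨hN, hγ, fun p hp hpD hd => ?_⟩
  have hfact : Fact p.Prime := ⟨hp⟩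
  have hpρ : ¬ (p : ℤ) ∣ ρ := by
    intro h3
    have h4 := Nat.le_of_dvd (Int.natAbs_pos.2 hρ) (Int.natCast_dvd.1 h3)
    have h5 : ρ.natAbs ≤ max D (max ρ.natAbs N₁) :=
      le_trans (le_max_left _ _) (le_max_right _ _)
    omega
  have hlead : ¬ (p : ℤ) ∣ (kp N (γ : ℚ)).leadingCoeff := by
    rw [kp_lead hN]
    intro h3
    have h4 : p ∣ (γ : ℚ).den := by exact_mod_cast h3
    obtain ⟨k, hk⟩ := den_dvd (loc_sat hN₁ hloc hγ).1
    have h5 := hp.dvd_of_dvd_pow (h4.trans hk)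
    have h6 := Nat.le_of_dvd (Nat.pos_of_ne_zero hN₁) h5
    have h7 : N₁ ≤ max D (max ρ.natAbs N₁) := le_trans (le_max_right _ _) (le_max_right _ _)
    omega
  obtain ⟨k, _, _, z, hz, hz0⟩ := common_zero p hlead hd
  have hD : D < p := lt_of_le_of_lt (le_max_left _ _) hpD
  refine hbad p hp hD (near_z hab α (dvd_refl h) p hp hpρ z ?_ hz0)
  obtain ⟨q, hq⟩ := kp_dvd hN hξ hdeg _ (hcomp_root hQ ht hG)
  rw [hq, map_mul, hz, zero_mul]

/-- For all but finitely many values `t` of the rational function `P / Q` at the pure radicals all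
the values of the minimal polynomial at the `α` have a large prime factor. -/
theorem finite_badK (D : ℕ) {M L : ℕ} (hM : L ≤ M) (α : Fin M → ℚ) (Γ : Subgroup ℚˣ) (hΓ : Γ.FG)
    (P Q : ℤ[X]) (hPQ : IsCoprime (P.map (Int.castRingHom ℚ)) (Q.map (Int.castRingHom ℚ)))
    (hα : ∀ l, ∃ x : ℂ, x ≠ 0 ∧ aeval x P = (α l : ℂ) * aeval x Q ∧
      ∀ m : ℕ, 0 < m → ∀ γ ∈ Γ, x ^ m ≠ ((γ : ℚ) : ℂ)) :
    {t : ℂ | IsValue Γ P Q t ∧ ¬ ∃ f : Fin L → Fin M, Function.Injective f ∧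
      ∃ G : ℤ[X], Irreducible G ∧ aeval t G = 0 ∧
      ∀ l, ∃ p : ℕ, p.Prime ∧ D < p ∧ (p : ℤ) ∣ Nv G (α (f l))}.Finite := by
  classical
  obtain ⟨a, b, ρ, hρ, hab⟩ := bez hPQ
  refine (Set.finite_iUnion fun l => finite_value Γ hΓ hρ hab (α l) (hα l) D).subset ?_
  rintro t ⟨hval, hbad⟩
  obtain ⟨G, hG, hGt⟩ := exists_irr (alg_of_value Γ P Q t hval)
  by_contra hc
  rw [Set.mem_iUnion] at hc
  push Not at hc
  apply hbad
  refine ⟨Fin.castLE hM, Fin.castLE_injective hM, G, hG, hGt, fun l => ?_⟩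
  by_contra hc2
  push Not at hc2
  exact hc (Fin.castLE hM l) ⟨hval, G, hGt, hc2⟩

end Pool.Agent.V1138.KR
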