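import Mathlib
import Pool.Agent.V1138.KR.Many

/-!
# Real radicals are pure
-/

set_option autoImplicit false

namespace Pool.Agent.V1138.KR

open Polynomial

/-- A real number with a power in `Γ` is a pure radical. -/
theorem pure_of_real (Γ : Subgroup ℚˣ) (r : ℝ) {N₀ : ℕ} (hN₀ : 0 < N₀) (γ₀ : ℚˣ) (hγ₀ : γ₀ ∈ Γ)
    (h : r ^ N₀ = ((γ₀ : ℚ) : ℝ)) : Pure Γ (r : ℂ) := by
  classical
  have hr0 : r ≠ 0 := by
    rintro rfl
    rw [zero_pow hN₀.ne'] at h
    have h1 : (γ₀ : ℚ) = 0 := by exact_mod_cast h.symm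
    exact γ₀.ne_zero h1
  have hex : ∃ N : ℕ, 0 < N ∧ ∃ q : ℚ, r ^ N = (q : ℝ) := ⟨N₀, hN₀, γ₀, h⟩
  obtain ⟨hN, q, hq⟩ := Nat.find_spec hex
  set N := Nat.find hex with hNdef
  have hq0 : q ≠ 0 := by
    rintro rfl
    rw [Rat.cast_zero] at hq
    exact pow_ne_zero N hr0 hq
  refine ⟨N, hN, Units.mk0 q hq0, ⟨N₀, hN₀, ?_⟩, ?_, ?_⟩
  · have h1 : Units.mk0 q hq0 ^ N₀ = γ₀ ^ N := by
      apply Units.ext
      rw [Units.val_pow_eq_pow_val, Units.val_pow_eq_pow_val, Units.val_mk0]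
      have h2 : ((q ^ N₀ : ℚ) : ℝ) = (((γ₀ : ℚ) ^ N : ℚ) : ℝ) := by
        push_cast
        rw [← hq, ← h, ← pow_mul, ← pow_mul, mul_comm]
      exact_mod_cast h2
    rw [h1]
    exact Γ.pow_mem hγ₀ N
  · rw [Units.val_mk0]
    exact_mod_cast congrArg (fun y : ℝ => (y : ℂ)) hq
  · have hmon : (X ^ N - C q : ℚ[X]).Monic := monic_X_pow_sub_C q hN.ne'
    have hξ : ((r : ℝ) : ℂ) ^ N = (q : ℂ) := by
      exact_mod_cast congrArg (fun y : ℝ => (y : ℂ)) hq
    have h0 : aeval (r : ℂ) (X ^ N - C q : ℚ[X]) = 0 := by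
      rw [map_sub, map_pow, aeval_X, aeval_C, hξ]
      simp
    have hint : IsIntegral ℚ (r : ℂ) := ⟨X ^ N - C q, hmon, h0⟩
    set g := minpoly ℚ (r : ℂ) with hg
    have hgm : g.Monic := minpoly.monic hint
    have hd : g ∣ X ^ N - C q := minpoly.dvd ℚ _ h0
    set G : ℂ[X] := g.map (algebraMap ℚ ℂ) with hG
    have hGm : G.Monic := hgm.map _
    have hs : G.Splits := IsAlgClosed.splits _
    have habs : ∀ z ∈ G.roots, ‖z‖ = |r| := by
      intro z hz
      have h1 : eval z G = 0 := (mem_roots'.1 hz).2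
      obtain ⟨e, he⟩ := hd
      have h2 := congrArg (fun P : ℚ[X] => eval z (P.map (algebraMap ℚ ℂ))) he
      simp only [Polynomial.map_mul, eval_mul] at h2
      rw [← hG, h1, zero_mul, Polynomial.map_sub, Polynomial.map_pow, map_X, map_C, eval_sub,
        eval_pow, eval_X, eval_C, sub_eq_zero] at h2
      have h3 : z ^ N = ((r : ℝ) : ℂ) ^ N := by
        rw [h2, hξ]
        rfl
      have h4 := congrArg norm h3
      rw [norm_pow, norm_pow, Complex.norm_real, Real.norm_eq_abs] at h4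
      exact (pow_left_inj₀ (norm_nonneg z) (abs_nonneg r) hN.ne').1 h4
    have h1 := hs.coeff_zero_eq_prod_roots_of_monic hGm
    have h2 : ‖G.coeff 0‖ = |r| ^ g.natDegree := by
      rw [h1, norm_mul, norm_pow, norm_neg, norm_one, one_pow, one_mul, FZ.norm_mprod',
        Multiset.map_congr rfl (g := fun _ => |r|) habs, Multiset.map_const', Multiset.prod_replicate,
        ← hs.natDegree_eq_card_roots, hG, natDegree_map]
    have h3 : ∃ q' : ℚ, r ^ g.natDegree = (q' : ℝ) := by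
      rw [hG, coeff_map] at h2
      have h4 : |r| ^ g.natDegree = ((|g.coeff 0| : ℚ) : ℝ) := by
        rw [← h2, eq_ratCast, Complex.norm_ratCast, Rat.cast_abs]
      rw [← abs_pow] at h4
      rcases abs_eq_abs.1 (h4.trans (Rat.cast_abs _)) with h5 | h5
      · exact ⟨_, h5⟩
      · exact ⟨-g.coeff 0, by rw [h5, Rat.cast_neg]⟩
    exact Nat.find_le (h := hex) ⟨minpoly.natDegree_pos hint, h3⟩

end Pool.Agent.V1138.KR
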